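import Pool.Agent.H695R3.PP.Stmts

/-!
# Project H695-LP, TaskResample: resampling one coordinate preserves the product measure
-/

set_option autoImplicit false

open scoped BigOperators ENNReal
open MeasureTheory

namespace Pool.Agent.H853R3.PP.Resample

theorem measurable_upd {ι : Type} [DecidableEq ι] {X : ι → Type} [∀ i, MeasurableSpace (X i)]
    (i : ι) : Measurable (fun p : (∀ j, X j) × X i => Function.update p.1 i p.2) := by
  refine measurable_pi_lambda _ fun j => ?_
  by_cases hj : j = i
  · subst hj
    simp only [Function.update_self]
    exact measurable_snd
  · simp only [Function.update_of_ne hj]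
    exact (measurable_pi_apply j).comp measurable_fst

theorem taskResample : Pool.Agent.H695R3.PP.TaskResample := by
  intro ι _ X _ μ _ i
  refine Measure.eq_infinitePi _ fun s t ht => ?_
  have hpi : MeasurableSet (Set.pi (s : Set ι) t) :=
    MeasurableSet.pi s.countable_toSet fun j _ => ht j
  rw [Measure.map_apply (measurable_upd i) hpi]
  by_cases hi : i ∈ s
  · have key : (fun p : (∀ j, X j) × X i => Function.update p.1 i p.2) ⁻¹'
        (Set.pi (s : Set ι) t) = (Set.pi ((s.erase i : Finset ι) : Set ι) t) ×ˢ (t i) := by
      ext p
      simp only [Set.mem_preimage, Set.mem_pi, Finset.mem_coe, Set.mem_prod, Finset.mem_erase]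
      constructor
      · intro h
        refine ⟨fun j hj => ?_, ?_⟩
        · have := h j hj.2
          rwa [Function.update_of_ne hj.1] at this
        · have := h i hi
          rwa [Function.update_self] at this
      · rintro ⟨h1, h2⟩ j hj
        by_cases hji : j = i
        · subst hji
          rw [Function.update_self]
          exact h2
        · rw [Function.update_of_ne hji]
          exact h1 j ⟨hji, hj⟩
    rw [key, Measure.prod_prod, Measure.infinitePi_pi _ (fun j _ => ht j), mul_comm,
      Finset.mul_prod_erase s (fun j => μ j (t j)) hi]
  · have key : (fun p : (∀ j, X j) × X i => Function.update p.1 i p.2) ⁻¹'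
        (Set.pi (s : Set ι) t) = (Set.pi (s : Set ι) t) ×ˢ (Set.univ : Set (X i)) := by
      ext p
      simp only [Set.mem_preimage, Set.mem_pi, Finset.mem_coe, Set.mem_prod, Set.mem_univ,
        and_true]
      constructor
      · intro h j hj
        have := h j hj
        rwa [Function.update_of_ne (by rintro rfl; exact hi hj)] at this
      · intro h j hj
        rw [Function.update_of_ne (by rintro rfl; exact hi hj)]
        exact h j hj
    rw [key, Measure.prod_prod, Measure.infinitePi_pi _ (fun j _ => ht j), measure_univ, mul_one]

end Pool.Agent.H853R3.PP.Resample

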